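import Mathlib

/-! The regularity condition for contact algebras is not first-order. -/

namespace Pool.Agent.Results.MP_50aa38_lc.NotElementary

open FirstOrder

/-- function symbols `0, 1, *, ∨, ∧` -/
inductive Fn : ℕ → Type
  | zero : Fn 0
  | one : Fn 0
  | cmp : Fn 1
  | sup : Fn 2
  | inf : Fn 2

/-- the relation symbol `C` -/
inductive Rl : ℕ → Type
  | con : Rl 2

/-- the first-order language of contact algebras -/
def L : Language := ⟨Fn, Rl⟩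

/-- a Boolean algebra with a binary relation, as a structure for `L` -/
@[reducible] def str (B : Type) [BooleanAlgebra B] (C : B → B → Prop) : L.Structure B where
  funMap := fun f v => match f with
    | .zero => ⊥
    | .one => ⊤
    | .cmp => (v 0)ᶜ
    | .sup => v 0 ⊔ v 1
    | .inf => v 0 ⊓ v 1
  RelMap := fun r v => match r with
    | .con => C (v 0) (v 1)

section defs
variable {B : Type} [BooleanAlgebra B]

/-- the conditions (C1)-(C4) -/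
structure IsContact (C : B → B → Prop) : Prop where
  c1 : ∀ a b, C a b → a ≠ ⊥ ∧ b ≠ ⊥
  c2 : ∀ a b c, C a (b ⊔ c) ↔ C a b ∨ C a c
  c3 : ∀ a b, C a b → C b a
  c4 : ∀ a b, a ⊓ b ≠ ⊥ → C a b

/-- clans -/
structure Clan (C : B → B → Prop) (Γ : Set B) : Prop where
  ne : Γ.Nonempty
  nb : ⊥ ∉ Γ
  up : ∀ a b, a ∈ Γ → a ≤ b → b ∈ Γ
  pr : ∀ a b, a ⊔ b ∈ Γ → a ∈ Γ ∨ b ∈ Γ
  cl : ∀ a ∈ Γ, ∀ b ∈ Γ, C a b

/-- clusters -/
def Cluster (C : B → B → Prop) (Γ : Set B) : Prop :=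
  Clan C Γ ∧ ∀ a, (∀ b ∈ Γ, C a b) → a ∈ Γ

/-- co-ends; `a ≪ b` is `¬ C a bᶜ` -/
def CoEnd (C : B → B → Prop) (Γ : Set B) : Prop :=
  Cluster C Γ ∧ ∀ a, a ∉ Γ → ∃ b, b ∉ Γ ∧ ¬ C a bᶜ

/-- the condition (Reg) -/
def Reg (C : B → B → Prop) : Prop :=
  ∀ a b, C a b → ∃ Γ, CoEnd C Γ ∧ a ∈ Γ ∧ b ∈ Γ

/-- an auxiliary first-order condition -/
def Phi (C : B → B → Prop) : Prop :=
  ∀ a b x y, C a b → ¬ C x y →
    ∃ k, ¬ C k kᶜ ∧ C (a ⊓ k) (b ⊓ k) ∧ (k ⊓ x = ⊥ ∨ k ⊓ y = ⊥)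

theorem IsContact.mono {C : B → B → Prop} (h : IsContact C) {a b a' b' : B} (k : C a b)
    (ha : a ≤ a') (hb : b ≤ b') : C a' b' := by
  have h1 : C a b' := by
    have := (h.c2 a b b').2 (Or.inl k)
    rwa [sup_eq_right.2 hb] at this
  have := (h.c2 b' a a').2 (Or.inl (h.c3 _ _ h1))
  rw [sup_eq_right.2 ha] at this
  exact h.c3 _ _ this

theorem reg_of_countable [Countable B] {C : B → B → Prop} (h : IsContact C) (hP : Phi C) :
    Reg C := by
  intro a b hab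
  obtain ⟨e, he⟩ := exists_surjective_nat (B × B)
  let G := {k : B // ¬ C k kᶜ ∧ C (a ⊓ k) (b ⊓ k)}
  have step : ∀ (k : G) (z : B × B), ∃ k' : G, k'.1 ≤ k.1 ∧
      (¬ C z.1 z.2 → k'.1 ⊓ z.1 = ⊥ ∨ k'.1 ⊓ z.2 = ⊥) := by
    rintro ⟨k, k1, k2⟩ ⟨x, y⟩
    by_cases hxy : C x y
    · exact ⟨⟨k, k1, k2⟩, le_rfl, fun hn => (hn hxy).elim⟩
    · obtain ⟨j, j1, j2, j3⟩ := hP _ _ x y k2 hxy
      refine ⟨⟨k ⊓ j, ?_, by simpa only [inf_assoc] using j2⟩, inf_le_left, fun _ => ?_⟩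
      · rw [compl_inf, h.c2]
        rintro (hc | hc)
        · exact k1 (h.mono hc inf_le_left le_rfl)
        · exact j1 (h.mono hc inf_le_right le_rfl)
      · rcases j3 with j3 | j3
        · left; simp only [inf_assoc, j3, inf_bot_eq]
        · right; simp only [inf_assoc, j3, inf_bot_eq]
  choose f f1 f2 using step
  let k0 : G := ⟨⊤, fun hc => (h.c1 _ _ hc).2 compl_top, by simpa using hab⟩
  let k : ℕ → G := fun n => Nat.rec k0 (fun n x => f x (e n)) n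
  have anti : Antitone fun n => (k n).1 := antitone_nat_of_succ_le fun n => f1 (k n) (e n)
  have sm : ∀ {d : B} {n m : ℕ}, n ≤ m → d ⊓ (k n).1 = ⊥ → d ⊓ (k m).1 = ⊥ := fun hnm hd =>
    le_bot_iff.1 (hd ▸ inf_le_inf_left _ (anti hnm))
  let Γ : Set B := {d | ∀ n, d ⊓ (k n).1 ≠ ⊥}
  have ha : a ∈ Γ := fun n => (h.c1 _ _ (k n).2.2).1
  have hb : b ∈ Γ := fun n => (h.c1 _ _ (k n).2.2).2
  have pr : ∀ c d, c ⊔ d ∈ Γ → c ∈ Γ ∨ d ∈ Γ := by
    intro c d hcd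
    by_contra hn
    simp only [Γ, Set.mem_setOf_eq, not_or, not_forall, not_not] at hn
    obtain ⟨⟨n, hn⟩, m, hm⟩ := hn
    apply hcd (max n m)
    rw [inf_sup_right, sm (le_max_left n m) hn, sm (le_max_right n m) hm, bot_sup_eq]
  have up : ∀ c d, c ∈ Γ → c ≤ d → d ∈ Γ := fun c d hc hcd n hd =>
    hc n (le_bot_iff.1 (hd ▸ inf_le_inf_right _ hcd))
  have ce : ∀ c, c ∉ Γ → ∃ d, d ∉ Γ ∧ ¬ C c dᶜ := by
    intro c hc
    simp only [Γ, Set.mem_setOf_eq, not_forall, not_not] at hc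
    obtain ⟨n, hn⟩ := hc
    refine ⟨(k n).1ᶜ, fun hd => hd n (by simp), fun hd => (k n).2.1 ?_⟩
    rw [compl_compl] at hd
    exact h.mono (h.c3 _ _ hd) le_rfl (le_compl_iff_disjoint_right.2 (disjoint_iff.2 hn))
  refine ⟨Γ, ⟨⟨⟨⟨a, ha⟩, fun hd => hd 0 (by simp), up, pr, ?_⟩, ?_⟩, ce⟩, ha, hb⟩
  · intro c hc d hd
    by_contra hn
    obtain ⟨n, hn'⟩ := he (c, d)
    have hc' : (e n).1 = c := by rw [hn']
    have hd' : (e n).2 = d := by rw [hn']
    rcases f2 (k n) (e n) (by rw [hc', hd']; exact hn) with h1 | h1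
    · exact hc (n + 1) (by rw [inf_comm, ← hc']; exact h1)
    · exact hd (n + 1) (by rw [inf_comm, ← hd']; exact h1)
  · intro c hc
    by_contra hn
    obtain ⟨d, d1, d2⟩ := ce c hn
    have : d ⊔ dᶜ ∈ Γ := up a _ ha (by simp)
    exact d2 (hc _ ((pr _ _ this).resolve_left d1))

end defs

/-- points of the example -/
inductive Pt : Type
  | A (t : ℕ → Bool)
  | B (t : ℕ → Bool)
  | W (t : ℕ → Bool)
  | P (t : ℕ → Bool) (n : ℕ)
  | Q (t : ℕ → Bool) (n : ℕ)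

def Pt.idx : Pt → ℕ → Bool
  | .A t | .B t | .W t | .P t _ | .Q t _ => t

def Pt.isA : Pt → Prop
  | .A _ => True
  | _ => False

inductive E : Pt → Pt → Prop
  | ab (t) : E (.A t) (.B t)
  | bw (t) : E (.B t) (.W t)
  | pq (t n) : E (.P t n) (.Q t n)

def R (p q : Pt) : Prop := p = q ∨ E p q ∨ E q p

def near (t s : ℕ → Bool) (n : ℕ) : Prop := ∀ i < n, s i = t i

def N : Pt → ℕ → Pt → Prop
  | .A t, n, q => q.isA ∧ near t q.idx n
  | .B t, n, q => (q.idx ≠ t ∧ near t q.idx n ∧ ¬ q.isA) ∨ ∃ m, n ≤ m ∧ q = .P t m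
  | .W t, n, q => ∃ m, n ≤ m ∧ q = .Q t m
  | .P _ _, _, _ => False
  | .Q _ _, _, _ => False

theorem near_mono {t s n m} (h : near t s m) (hn : n ≤ m) : near t s n :=
  fun i hi => h i (by omega)

theorem N_mono {p q n m} (h : N p m q) (hn : n ≤ m) : N p n q := by
  cases p with
  | A t => exact ⟨h.1, near_mono h.2 hn⟩
  | B t =>
    rcases h with ⟨h1, h2, h3⟩ | ⟨k, hk, h⟩
    · exact Or.inl ⟨h1, near_mono h2 hn, h3⟩
    · exact Or.inr ⟨k, by omega, h⟩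
  | W t => obtain ⟨k, hk, h⟩ := h; exact ⟨k, by omega, h⟩
  | P t _ => exact h
  | Q t _ => exact h

theorem N_near {p q n} (h : N p n q) : near p.idx q.idx n := by
  cases p with
  | A t => exact h.2
  | B t =>
    rcases h with ⟨_, h2, _⟩ | ⟨k, _, rfl⟩
    · exact h2
    · exact fun _ _ => rfl
  | W t => obtain ⟨k, _, rfl⟩ := h; exact fun _ _ => rfl
  | P t _ => exact h.elim
  | Q t _ => exact h.elim

theorem N_isA {p q n} (h : N p n q) : q.isA ↔ p.isA := by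
  cases p with
  | A t => exact ⟨fun _ => trivial, fun _ => h.1⟩
  | B t =>
    rcases h with ⟨_, _, h3⟩ | ⟨k, _, rfl⟩
    · exact ⟨h3, False.elim⟩
    · exact Iff.rfl
  | W t => obtain ⟨k, _, rfl⟩ := h; exact Iff.rfl
  | P t _ => exact h.elim
  | Q t _ => exact h.elim

theorem R_idx {p q} (h : R p q) : p.idx = q.idx := by
  rcases h with rfl | h | h
  · rfl
  · cases h <;> rfl
  · cases h <;> rfl

theorem R_symm {p q} (h : R p q) : R q p := by
  rcases h with rfl | h | h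
  exacts [Or.inl rfl, Or.inr (Or.inr h), Or.inr (Or.inl h)]

def Clop (a : Set Pt) : Prop := ∀ p, ∃ n, ∀ q, N p n q → (q ∈ a ↔ p ∈ a)

theorem clop2 {a b : Set Pt} (ha : Clop a) (hb : Clop b) (p : Pt) :
    ∃ n, ∀ q, N p n q → (q ∈ a ↔ p ∈ a) ∧ (q ∈ b ↔ p ∈ b) := by
  obtain ⟨n, hn⟩ := ha p
  obtain ⟨m, hm⟩ := hb p
  exact ⟨max n m, fun q hq => ⟨hn q (N_mono hq (le_max_left _ _)),
    hm q (N_mono hq (le_max_right _ _))⟩⟩

def alg : BooleanSubalgebra (Set Pt) where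
  carrier := {a | Clop a}
  supClosed' := fun a ha b hb p => by
    obtain ⟨n, hn⟩ := clop2 ha hb p
    exact ⟨n, fun q hq => or_congr (hn q hq).1 (hn q hq).2⟩
  infClosed' := fun a ha b hb p => by
    obtain ⟨n, hn⟩ := clop2 ha hb p
    exact ⟨n, fun q hq => and_congr (hn q hq).1 (hn q hq).2⟩
  compl_mem' := fun {a} ha p => by
    obtain ⟨n, hn⟩ := ha p
    exact ⟨n, fun q hq => not_congr (hn q hq)⟩
  bot_mem' := fun _ => ⟨0, fun _ _ => Iff.rfl⟩

def C0 (a b : alg) : Prop := ∃ p ∈ a.1, ∃ q ∈ b.1, R p q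

theorem contact0 : IsContact C0 where
  c1 := by
    rintro a b ⟨p, hp, q, hq, _⟩
    constructor
    · rintro rfl; exact hp
    · rintro rfl; exact hq
  c2 := by
    intro a b c
    constructor
    · rintro ⟨p, hp, q, hq | hq, h⟩
      exacts [Or.inl ⟨p, hp, q, hq, h⟩, Or.inr ⟨p, hp, q, hq, h⟩]
    · rintro (⟨p, hp, q, hq, h⟩ | ⟨p, hp, q, hq, h⟩)
      exacts [⟨p, hp, q, Or.inl hq, h⟩, ⟨p, hp, q, Or.inr hq, h⟩]
  c3 := fun _ _ ⟨p, hp, q, hq, h⟩ => ⟨q, hq, p, hp, R_symm h⟩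
  c4 := by
    intro a b h
    by_contra hn
    apply h
    apply Subtype.ext
    exact Set.eq_empty_of_forall_notMem fun p hp => hn ⟨p, hp.1, p, hp.2, Or.inl rfl⟩

def cyl (t : ℕ → Bool) (n : ℕ) : alg :=
  ⟨{q | near t q.idx n}, fun _ => ⟨n, fun _ hq =>
    ⟨fun h i hi => (N_near hq i hi).symm.trans (h i hi),
     fun h i hi => (N_near hq i hi).trans (h i hi)⟩⟩⟩

theorem clop_of_idx (t : ℕ → Bool) (a : Set Pt) (h : ∀ q ∈ a, q.idx = t)
    (k : ∀ p, p.idx = t → ∃ n, ∀ q, N p n q → (q ∈ a ↔ p ∈ a)) : Clop a := by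
  intro p
  by_cases hp : p.idx = t
  · exact k p hp
  · obtain ⟨i, hi⟩ := Function.ne_iff.1 hp
    refine ⟨i + 1, fun q hq => ⟨fun hq' => ?_, fun hp' => (hp (h p hp')).elim⟩⟩
    exact (hi ((N_near hq i (by omega)).symm.trans (congrFun (h q hq') i))).elim

def pair (t : ℕ → Bool) (m : ℕ) : alg :=
  ⟨{q | q = .P t m ∨ q = .Q t m}, clop_of_idx t _ (by rintro q (rfl | rfl) <;> rfl) (by
    intro p hp
    refine ⟨m + 1, fun q hq => ?_⟩
    cases p with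
    | A s =>
      refine ⟨?_, by simp⟩
      rintro (rfl | rfl) <;> exact hq.1.elim
    | B s =>
      obtain rfl : s = t := hp
      refine ⟨?_, by simp⟩
      rcases hq with ⟨h1, _⟩ | ⟨k, hk, rfl⟩
      · rintro (rfl | rfl) <;> exact (h1 rfl).elim
      · simp; omega
    | W s =>
      obtain ⟨k, hk, rfl⟩ := hq
      simp; omega
    | P s _ => exact hq.elim
    | Q s _ => exact hq.elim)⟩

def wq (t : ℕ → Bool) : alg :=
  ⟨{q | q = .W t ∨ ∃ m, q = .Q t m}, clop_of_idx t _ (by rintro q (rfl | ⟨m, rfl⟩) <;> rfl) (by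
    intro p hp
    refine ⟨0, fun q hq => ?_⟩
    cases p with
    | A s =>
      refine ⟨?_, by simp⟩
      rintro (rfl | ⟨m, rfl⟩) <;> exact hq.1.elim
    | B s =>
      obtain rfl : s = t := hp
      refine ⟨?_, by simp⟩
      rcases hq with ⟨h1, _⟩ | ⟨k, hk, rfl⟩
      · rintro (rfl | ⟨m, rfl⟩) <;> exact (h1 rfl).elim
      · simp
    | W s =>
      obtain rfl : s = t := hp
      obtain ⟨k, hk, rfl⟩ := hq
      simp
    | P s _ => exact hq.elim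
    | Q s _ => exact hq.elim)⟩

def a0 : alg := ⟨{q | q.isA}, fun _ => ⟨0, fun _ hq => N_isA hq⟩⟩

theorem eq_bot {a : alg} (h : ∀ p, p ∉ a.1) : a = ⊥ :=
  Subtype.ext (Set.eq_empty_of_forall_notMem h)

theorem phi_pair {a b x y : alg} (hxy : ¬ C0 x y) (t m) {p q} (hp : p ∈ a.1) (hq : q ∈ b.1)
    (hp' : p ∈ (pair t m).1) (hq' : q ∈ (pair t m).1) :
    ∃ k, ¬ C0 k kᶜ ∧ C0 (a ⊓ k) (b ⊓ k) ∧ (k ⊓ x = ⊥ ∨ k ⊓ y = ⊥) := by
  have cl : ∀ p ∈ (pair t m).1, ∀ q ∈ (pair t m).1, R p q := by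
    rintro p (rfl | rfl) q (rfl | rfl)
    exacts [Or.inl rfl, Or.inr (Or.inl (E.pq _ _)), Or.inr (Or.inr (E.pq _ _)), Or.inl rfl]
  refine ⟨pair t m, ?_, ⟨p, ⟨hp, hp'⟩, q, ⟨hq, hq'⟩, cl p hp' q hq'⟩, ?_⟩
  · rintro ⟨u, hu, v, hv, rfl | h | h⟩
    · exact hv hu
    · rcases hu with rfl | rfl <;> cases h
      exact hv (Or.inr rfl)
    · rcases hu with rfl | rfl <;> cases h
      exact hv (Or.inl rfl)
  · by_contra hn
    rw [not_or] at hn
    obtain ⟨u, hu⟩ := not_forall.1 fun h => hn.1 (eq_bot h)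
    obtain ⟨v, hv⟩ := not_forall.1 fun h => hn.2 (eq_bot h)
    rw [not_not] at hu hv
    exact hxy ⟨u, hu.2, v, hv.2, cl u hu.1 v hv.1⟩

theorem phi_cyl {a b x y : alg} (hxy : ¬ C0 x y) (t) {p q} (hp : p ∈ a.1) (hq : q ∈ b.1)
    (hp' : p = .A t ∨ p = .B t) (hq' : q = .A t ∨ q = .B t) :
    ∃ k, ¬ C0 k kᶜ ∧ C0 (a ⊓ k) (b ⊓ k) ∧ (k ⊓ x = ⊥ ∨ k ⊓ y = ⊥) := by
  obtain ⟨n1, h1⟩ := clop2 a.2 b.2 (.A t)
  obtain ⟨n2, h2⟩ := clop2 a.2 b.2 (.B t)
  obtain ⟨n3, h3⟩ := clop2 x.2 y.2 (.A t)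
  obtain ⟨n4, h4⟩ := clop2 x.2 y.2 (.B t)
  obtain ⟨n, l1, l2, l3, l4⟩ : ∃ n, n1 ≤ n ∧ n2 ≤ n ∧ n3 ≤ n ∧ n4 ≤ n :=
    ⟨n1 + n2 + n3 + n4, by omega, by omega, by omega, by omega⟩
  let s := Function.update t n (!t n)
  have key : ∀ u ∈ (cyl s (n + 1)).1, (u.isA ∧ N (.A t) n u) ∨ (¬ u.isA ∧ N (.B t) n u) := by
    intro u hu
    have e1 : near t u.idx n := fun i hi => by
      rw [hu i (by omega)]; simp [s, hi.ne]
    have e2 : u.idx ≠ t := fun e => by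
      have := hu n (by omega)
      rw [e] at this; simp [s] at this
    by_cases hA : u.isA
    · exact Or.inl ⟨hA, hA, e1⟩
    · exact Or.inr ⟨hA, Or.inl ⟨e2, e1, hA⟩⟩
  have mA : Pt.A s ∈ (cyl s (n + 1)).1 := fun _ _ => rfl
  have mB : Pt.B s ∈ (cyl s (n + 1)).1 := fun _ _ => rfl
  have nA : N (.A t) n (.A s) := ((key _ mA).resolve_right fun h => h.1 trivial).2
  have nB : N (.B t) n (.B s) := ((key _ mB).resolve_left fun h => h.1).2
  have a1 := h1 _ (N_mono nA l1)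
  have a2 := h2 _ (N_mono nB l2)
  refine ⟨cyl s (n + 1), ?_, ?_, ?_⟩
  · rintro ⟨u, hu, v, hv, h⟩
    apply hv
    show near s v.idx (n + 1)
    rw [← R_idx h]; exact hu
  · rcases hp' with rfl | rfl <;> rcases hq' with rfl | rfl
    · exact ⟨_, ⟨a1.1.2 hp, mA⟩, _, ⟨a1.2.2 hq, mA⟩, Or.inl rfl⟩
    · exact ⟨_, ⟨a1.1.2 hp, mA⟩, _, ⟨a2.2.2 hq, mB⟩, Or.inr (Or.inl (E.ab _))⟩
    · exact ⟨_, ⟨a2.1.2 hp, mB⟩, _, ⟨a1.2.2 hq, mA⟩, Or.inr (Or.inr (E.ab _))⟩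
    · exact ⟨_, ⟨a2.1.2 hp, mB⟩, _, ⟨a2.2.2 hq, mB⟩, Or.inl rfl⟩
  · by_contra hn
    rw [not_or] at hn
    obtain ⟨u, hu⟩ := not_forall.1 fun h => hn.1 (eq_bot h)
    obtain ⟨v, hv⟩ := not_forall.1 fun h => hn.2 (eq_bot h)
    rw [not_not] at hu hv
    apply hxy
    rcases key u hu.1 with ⟨_, k1⟩ | ⟨_, k1⟩ <;> rcases key v hv.1 with ⟨_, k2⟩ | ⟨_, k2⟩
    · exact ⟨_, (h3 _ (N_mono k1 l3)).1.1 hu.2, _, (h3 _ (N_mono k2 l3)).2.1 hv.2, Or.inl rfl⟩
    · exact ⟨_, (h3 _ (N_mono k1 l3)).1.1 hu.2, _, (h4 _ (N_mono k2 l4)).2.1 hv.2,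
        Or.inr (Or.inl (E.ab _))⟩
    · exact ⟨_, (h4 _ (N_mono k1 l4)).1.1 hu.2, _, (h3 _ (N_mono k2 l3)).2.1 hv.2,
        Or.inr (Or.inr (E.ab _))⟩
    · exact ⟨_, (h4 _ (N_mono k1 l4)).1.1 hu.2, _, (h4 _ (N_mono k2 l4)).2.1 hv.2, Or.inl rfl⟩

theorem tailB {a : alg} {t} (h : Pt.B t ∈ a.1) : ∃ n, ∀ m, n ≤ m → Pt.P t m ∈ a.1 := by
  obtain ⟨n, hn⟩ := a.2 (.B t)
  exact ⟨n, fun m hm => (hn _ (Or.inr ⟨m, hm, rfl⟩)).2 h⟩

theorem tailW {a : alg} {t} (h : Pt.W t ∈ a.1) : ∃ n, ∀ m, n ≤ m → Pt.Q t m ∈ a.1 := by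
  obtain ⟨n, hn⟩ := a.2 (.W t)
  exact ⟨n, fun m hm => (hn _ ⟨m, hm, rfl⟩).2 h⟩

theorem phi0 : Phi C0 := by
  rintro a b x y ⟨p, hp, q, hq, h⟩ hxy
  rcases h with rfl | h | h
  · cases p with
    | A t => exact phi_cyl hxy t hp hq (Or.inl rfl) (Or.inl rfl)
    | B t => exact phi_cyl hxy t hp hq (Or.inr rfl) (Or.inr rfl)
    | W t =>
      obtain ⟨n, hn⟩ := tailW hp
      obtain ⟨m, hm⟩ := tailW hq
      exact phi_pair hxy t (n + m) (hn _ (by omega)) (hm _ (by omega)) (Or.inr rfl) (Or.inr rfl)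
    | P t m => exact phi_pair hxy t m hp hq (Or.inl rfl) (Or.inl rfl)
    | Q t m => exact phi_pair hxy t m hp hq (Or.inr rfl) (Or.inr rfl)
  · cases h with
    | ab t => exact phi_cyl hxy t hp hq (Or.inl rfl) (Or.inr rfl)
    | bw t =>
      obtain ⟨n, hn⟩ := tailB hp
      obtain ⟨m, hm⟩ := tailW hq
      exact phi_pair hxy t (n + m) (hn _ (by omega)) (hm _ (by omega)) (Or.inl rfl) (Or.inr rfl)
    | pq t m => exact phi_pair hxy t m hp hq (Or.inl rfl) (Or.inr rfl)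
  · cases h with
    | ab t => exact phi_cyl hxy t hp hq (Or.inr rfl) (Or.inl rfl)
    | bw t =>
      obtain ⟨n, hn⟩ := tailW hp
      obtain ⟨m, hm⟩ := tailB hq
      exact phi_pair hxy t (n + m) (hn _ (by omega)) (hm _ (by omega)) (Or.inr rfl) (Or.inl rfl)
    | pq t m => exact phi_pair hxy t m hp hq (Or.inr rfl) (Or.inl rfl)

theorem not_reg0 : ¬ Reg C0 := by
  intro h
  obtain ⟨Γ, ⟨⟨hΓ, _⟩, ce⟩, ha, hb⟩ := h a0 a0ᶜ
    ⟨.A fun _ => true, trivial, .B fun _ => true, fun h => h, Or.inr (Or.inl (E.ab _))⟩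
  have step : ∀ n (t : {t // a0 ⊓ cyl t n ∈ Γ}), ∃ s : {t // a0 ⊓ cyl t (n + 1) ∈ Γ},
      near t.1 s.1 n := by
    rintro n ⟨t, ht⟩
    have nu : ∀ c, near t (Function.update t n c) n := fun c i hi => by simp [hi.ne]
    have : a0 ⊓ cyl (Function.update t n true) (n + 1) ⊔
        a0 ⊓ cyl (Function.update t n false) (n + 1) ∈ Γ := by
      refine hΓ.up _ _ ht fun u hu => ?_
      have w : ∀ c, u.idx n = c → near (Function.update t n c) u.idx (n + 1) := by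
        intro c hc i hi
        by_cases e : i = n
        · simp [e, hc]
        · rw [hu.2 i (by omega)]; simp [e]
      cases hc : u.idx n
      · exact Or.inr ⟨hu.1, w _ hc⟩
      · exact Or.inl ⟨hu.1, w _ hc⟩
    rcases hΓ.pr _ _ this with h | h
    · exact ⟨⟨_, h⟩, nu _⟩
    · exact ⟨⟨_, h⟩, nu _⟩
  choose f hf using step
  let g : ∀ n, {t // a0 ⊓ cyl t n ∈ Γ} := fun n => Nat.rec
    ⟨fun _ => true, hΓ.up _ _ ha fun u hu => ⟨hu, fun i hi => absurd hi (Nat.not_lt_zero i)⟩⟩ f n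
  have g1 : ∀ n m, n ≤ m → near (g n).1 (g m).1 n := by
    intro n m hnm
    induction m, hnm using Nat.le_induction with
    | base => exact fun _ _ => rfl
    | succ m hm ih => exact fun i hi => (hf m (g m) i (by omega)).trans (ih i hi)
  let t : ℕ → Bool := fun i => (g (i + 1)).1 i
  have hA : ∀ n, a0 ⊓ cyl t n ∈ Γ := fun n => hΓ.up _ _ (g n).2 fun u hu =>
    ⟨hu.1, fun i hi => (hu.2 i hi).trans (g1 (i + 1) n hi i (by omega))⟩
  have hB : ∀ n, a0ᶜ ⊓ cyl t n ∈ Γ := by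
    intro n
    have : a0ᶜ ⊓ cyl t n ⊔ (cyl t n)ᶜ ∈ Γ := hΓ.up _ _ hb (by
      rw [sup_comm, sup_inf_left]; simp)
    refine (hΓ.pr _ _ this).resolve_right fun hc => ?_
    obtain ⟨u, hu, v, hv, h⟩ := hΓ.cl _ (hA n) _ hc
    apply hv
    show near t v.idx n
    rw [← R_idx h]; exact hu.2
  have hy : wq t ∉ Γ := by
    intro hy
    obtain ⟨u, hu, v, hv, h⟩ := hΓ.cl _ ha _ hy
    rcases hv with rfl | ⟨m, rfl⟩ <;> rcases h with rfl | h | h
    all_goals first | exact hu | (cases h; exact hu) | cases h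
  obtain ⟨z, z1, z2⟩ := ce _ hy
  have hz : ∀ u ∈ (wq t).1, ∀ v, R u v → v ∈ z.1 := fun u hu v h =>
    by_contra fun hv => z2 ⟨u, hu, v, hv, h⟩
  have zB : Pt.B t ∈ z.1 := hz (.W t) (Or.inl rfl) _ (Or.inr (Or.inr (E.bw _)))
  obtain ⟨n, hn⟩ := z.2 (.B t)
  refine z1 (hΓ.up _ _ (hB n) fun u hu => ?_)
  by_cases e : u.idx = t
  · cases u with
    | A s => exact (hu.1 trivial).elim
    | B s => obtain rfl : s = t := e; exact zB
    | W s => obtain rfl : s = t := e; exact hz _ (Or.inl rfl) _ (Or.inl rfl)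
    | P s m =>
      obtain rfl : s = t := e
      exact hz (.Q _ m) (Or.inr ⟨m, rfl⟩) _ (Or.inr (Or.inr (E.pq _ _)))
    | Q s m => obtain rfl : s = t := e; exact hz _ (Or.inr ⟨m, rfl⟩) _ (Or.inl rfl)
  · exact (hn u (Or.inl ⟨e, hu.2, hu.1⟩)).2 zB

open Language

def tInf {α : Type} (s t : L.Term α) : L.Term α := Functions.apply₂ (L := L) Fn.inf s t
def tCmp {α : Type} (s : L.Term α) : L.Term α := Functions.apply₁ (L := L) Fn.cmp s
def tBot {α : Type} : L.Term α := Constants.term (L := L) Fn.zero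
def fCon {n : ℕ} (s t : L.Term (Empty ⊕ Fin n)) : L.BoundedFormula Empty n :=
  Relations.boundedFormula₂ (L := L) Rl.con s t

/-- the sentence expressing `Phi` -/
def psi : L.Sentence :=
  ∀' ∀' ∀' ∀' (fCon (&0) (&1) ⟹ ∼(fCon (&2) (&3)) ⟹
    ∃' (∼(fCon (&4) (tCmp (&4))) ⊓ (fCon (tInf (&0) (&4)) (tInf (&1) (&4)) ⊓
      ((tInf (&4) (&2) =' tBot) ⊔ (tInf (&4) (&3) =' tBot)))))

theorem sat_psi (B : Type) [BooleanAlgebra B] (C : B → B → Prop) :
    @Sentence.Realize L B (str B C) psi ↔ Phi C := by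
  letI := str B C
  simp only [psi, Sentence.Realize, Formula.Realize, BoundedFormula.realize_all,
    BoundedFormula.realize_imp, BoundedFormula.realize_not, BoundedFormula.realize_ex,
    BoundedFormula.realize_inf, BoundedFormula.realize_sup, BoundedFormula.realize_bdEqual,
    fCon, tInf, tCmp, tBot, BoundedFormula.realize_rel₂]
  rfl

theorem card_L : L.card ≤ Cardinal.aleph0 := by
  have h1 : Countable (Σ n, Fn n) := by
    refine Function.Injective.countable (f := fun x : Σ n, Fn n => match x with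
      | ⟨_, .zero⟩ => (0 : ℕ) | ⟨_, .one⟩ => 1 | ⟨_, .cmp⟩ => 2 | ⟨_, .sup⟩ => 3
      | ⟨_, .inf⟩ => 4) ?_
    rintro ⟨_, a⟩ ⟨_, b⟩ h
    cases a <;> cases b <;> first | rfl | cases h
  have h2 : Countable (Σ n, Rl n) := by
    refine Function.Injective.countable (f := fun _ : Σ n, Rl n => (0 : ℕ)) ?_
    rintro ⟨_, a⟩ ⟨_, b⟩ _
    cases a; cases b; rfl
  have : Countable L.Symbols := inferInstanceAs (Countable ((Σ n, Fn n) ⊕ (Σ n, Rl n)))
  exact Cardinal.mk_le_aleph0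

theorem result : ¬ ∃ T : L.Theory, ∀ (B : Type) [BooleanAlgebra B] [Nontrivial B]
    (C : B → B → Prop), IsContact C →
      ((∀ φ ∈ T, @Sentence.Realize L B (str B C) φ) ↔ Reg C) := by
  rintro ⟨T, hT⟩
  letI := str alg C0
  haveI : Infinite alg := Infinite.of_injective (pair fun _ => true) (by
    intro n m h
    have : Pt.P (fun _ => true) n ∈ (pair (fun _ => true) m).1 := h ▸ Or.inl rfl
    rcases this with e | e <;> cases e
    rfl)
  obtain ⟨S, -, hS⟩ := exists_elementarySubstructure_card_eq L (∅ : Set alg) Cardinal.aleph0.{0}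
    le_rfl (by simp) (by simpa using card_L) (by simp)
  have hf : ∀ {n} (f : Fn n) (v : Fin n → alg), (∀ i, v i ∈ S) →
      Structure.funMap (L := L) f v ∈ S := fun f v hv => S.toSubstructure.fun_mem f v hv
  let S' : BooleanSubalgebra alg :=
    { carrier := S
      supClosed' := fun a ha b hb => hf .sup ![a, b] (by simp [Fin.forall_fin_two]; exact ⟨ha, hb⟩)
      infClosed' := fun a ha b hb => hf .inf ![a, b] (by simp [Fin.forall_fin_two]; exact ⟨ha, hb⟩)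
      compl_mem' := fun {a} ha => hf .cmp ![a] (by simpa using ha)
      bot_mem' := hf .zero ![] (by simp) }
  let C1 : S' → S' → Prop := fun a b => C0 a.1 b.1
  have hC1 : IsContact C1 :=
    ⟨fun a b h => ⟨fun e => (contact0.c1 _ _ h).1 (congrArg Subtype.val e),
        fun e => (contact0.c1 _ _ h).2 (congrArg Subtype.val e)⟩,
      fun a b c => contact0.c2 _ _ _, fun a b => contact0.c3 _ _,
      fun a b h => contact0.c4 _ _ fun e => h (Subtype.ext e)⟩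
  haveI : Countable S' := by
    have : Countable S := Cardinal.mk_le_aleph0_iff.1 (by simpa using hS.le)
    exact this
  haveI : Nontrivial S' := ⟨⊥, ⊤, fun e => bot_ne_top (congrArg Subtype.val e)⟩
  have tr : ∀ φ : L.Sentence, @Sentence.Realize L S' (str S' C1) φ ↔ alg ⊨ φ := by
    intro φ
    let g : @Language.Equiv L S' S (str S' C1) S.inducedStructure :=
      @Language.Equiv.mk L S' S (str S' C1) S.inducedStructure
        { toFun := fun a => ⟨a.1, a.2⟩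
          invFun := fun a => ⟨a.1, a.2⟩
          left_inv := fun _ => rfl
          right_inv := fun _ => rfl }
        (fun f v => by cases f <;> rfl) (fun r v => by cases r; rfl)
    exact (@StrongHomClass.realize_sentence L S' S (str S' C1) S.inducedStructure _ _ _ g φ).trans
      (S.realize_sentence φ)
  have r1 : Reg C1 := reg_of_countable hC1
    ((sat_psi _ _).1 ((tr psi).2 ((sat_psi _ _).2 phi0)))
  exact not_reg0 ((hT alg C0 contact0).1 fun φ hφ => (tr φ).1 ((hT S' C1 hC1).2 r1 φ hφ))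

end Pool.Agent.Results.MP_50aa38_lc.NotElementary
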